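import Mathlib
import Pool.Agent.H220.K.Stm

/-!
# MP_0015b7_an, lemma S_esc (uses S_escA)
-/

set_option autoImplicit false

open Set Filter Topology Metric
open scoped ContDiff ComplexConjugate

namespace Pool.Agent.H200.K

open Pool.Agent.H220.K

/-- the orbit -/
noncomputable def yy (P : ℕ → ℂ) (p w : ℂ) : ℕ → ℂ
  | 0 => conj p
  | 1 => w
  | n + 2 => yy P p w n + A P n p * yy P p w (n + 1) ^ 2

theorem yy_two (P : ℕ → ℂ) (p w : ℂ) (n : ℕ) :
    yy P p w (n + 2) = yy P p w n + A P n p * yy P p w (n + 1) ^ 2 := by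
  rw [yy]

theorem Phi_eq (P : ℕ → ℂ) (p w : ℂ) (m : ℕ) :
    Phi P m (p, conj p, w) = (p, yy P p w (2 * m), yy P p w (2 * m + 1)) := by
  induction m with
  | zero =>
    have h0 : yy P p w 0 = conj p := by rw [yy]
    have h1 : yy P p w 1 = w := by rw [yy]
    show (p, conj p, w) = (p, yy P p w 0, yy P p w 1)
    rw [h0, h1]
  | succ m ih =>
    have h : Phi P (m + 1) (p, conj p, w) = F P m (Phi P m (p, conj p, w)) := rfl
    have h1 : yy P p w (2 * (m + 1)) =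
        yy P p w (2 * m) + A P (2 * m) p * yy P p w (2 * m + 1) ^ 2 := yy_two P p w (2 * m)
    have h2 : yy P p w (2 * (m + 1) + 1) =
        yy P p w (2 * m + 1) + A P (2 * m + 1) p * yy P p w (2 * (m + 1)) ^ 2 :=
      yy_two P p w (2 * m + 1)
    rw [h, ih, h2, h1]
    rfl

theorem norm_sub_le_two (P : ℕ → ℂ) (hP : ∀ j, ‖P j‖ ≤ 1) (p : ℂ) (hp : ‖p‖ ≤ 1) (j : ℕ) :
    ‖p - P j‖ ≤ 2 := by
  have := norm_sub_le p (P j)
  have := hP j
  linarith

theorem D2_eq (P : ℕ → ℂ) (p : ℂ) (j : ℕ) : D2 P j (p, conj p) = 2 * ‖p - P j‖ ^ 2 := by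
  unfold D2
  have h : ‖conj p - conj (P j)‖ = ‖p - P j‖ := by
    rw [← map_sub, RCLike.norm_conj]
  simp only
  rw [h]
  ring

theorem D2_le (P : ℕ → ℂ) (hP : ∀ j, ‖P j‖ ≤ 1) (p : ℂ) (hp : ‖p‖ ≤ 1) (j : ℕ) :
    D2 P j (p, conj p) ≤ 8 := by
  rw [D2_eq]
  have h1 := norm_sub_le_two P hP p hp j
  have h2 := norm_nonneg (p - P j)
  nlinarith

theorem rest_le (p w : ℂ) (hp : ‖p‖ ≤ 1) :
    rest (p, conj p, w) ≤ -18 + 1 / 2 * Real.log (1 + ‖w‖ ^ 2) := by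
  unfold rest
  simp only [RCLike.norm_conj]
  have := norm_nonneg p
  nlinarith

theorem part_sum (P : ℕ → ℂ) (hP : ∀ j, ‖P j‖ ≤ 1) (p w : ℂ) (hp : ‖p‖ ≤ 1) (δ : ℝ) (hδ : 0 < δ)
    (hδ8 : δ ≤ 8) (h : 0 ≤ vt P δ (p, conj p, w)) (n : ℕ) :
    ∑ j ∈ Finset.range n, (1 / 2 : ℝ) ^ j *
      (1 / 2 * (Real.log 8 - Real.log (max (D2 P j (p, conj p)) δ))) ≤
      Real.log 8 - 18 + 1 / 2 * Real.log (1 + ‖w‖ ^ 2) := by
  obtain ⟨t, ht⟩ : ∃ t : ℕ → ℝ, t = fun j => (1 / 2 : ℝ) ^ j *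
    (1 / 2 * (Real.log 8 - Real.log (max (D2 P j (p, conj p)) δ))) := ⟨_, rfl⟩
  have hmax : ∀ j, δ ≤ max (D2 P j (p, conj p)) δ ∧ max (D2 P j (p, conj p)) δ ≤ 8 := fun j =>
    ⟨le_max_right _ _, max_le (D2_le P hP p hp j) hδ8⟩
  have ht0 : ∀ j, 0 ≤ t j := by
    intro j
    rw [ht]
    have h1 : Real.log (max (D2 P j (p, conj p)) δ) ≤ Real.log 8 :=
      Real.log_le_log (lt_of_lt_of_le hδ (hmax j).1) (hmax j).2
    have h2 : 0 ≤ Real.log 8 - Real.log (max (D2 P j (p, conj p)) δ) := by linarith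
    positivity
  have ht1 : ∀ j, t j ≤ (1 / 2 : ℝ) ^ j * (1 / 2 * (Real.log 8 - Real.log δ)) := by
    intro j
    rw [ht]
    have h1 : Real.log δ ≤ Real.log (max (D2 P j (p, conj p)) δ) :=
      Real.log_le_log hδ (hmax j).1
    exact mul_le_mul_of_nonneg_left (by linarith) (by positivity)
  have hgeo : Summable fun j : ℕ => (1 / 2 : ℝ) ^ j := summable_geometric_two
  have hts : Summable t := Summable.of_nonneg_of_le ht0 ht1 (hgeo.mul_right _)
  have hgs : Summable fun j : ℕ => (1 / 2 : ℝ) ^ j * (1 / 2 * Real.log 8) := hgeo.mul_right _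
  have hgt : gt P δ (p, conj p) = Real.log 8 - ∑' j, t j := by
    unfold gt
    have h1 : ∀ j : ℕ, (1 / 2 : ℝ) ^ j * (1 / 2 * Real.log (max (D2 P j (p, conj p)) δ)) =
        (1 / 2 : ℝ) ^ j * (1 / 2 * Real.log 8) - t j := by
      intro j
      rw [ht]
      ring
    simp only [h1]
    rw [hgs.tsum_sub hts, tsum_mul_right, tsum_geometric_two]
    ring
  have h2 : ∑ j ∈ Finset.range n, t j ≤ ∑' j, t j := hts.sum_le_tsum _ fun j _ => ht0 j
  have h3 : vt P δ (p, conj p, w) = gt P δ (p, conj p) + rest (p, conj p, w) := rfl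
  rw [h3, hgt] at h
  have h4 := rest_le p w hp
  have h5 : ∑ j ∈ Finset.range n, (1 / 2 : ℝ) ^ j *
      (1 / 2 * (Real.log 8 - Real.log (max (D2 P j (p, conj p)) δ))) =
        ∑ j ∈ Finset.range n, t j := by rw [ht]
  rw [h5]
  linarith

theorem log8 : Real.log 8 = 3 * Real.log 2 := by
  rw [show (8 : ℝ) = 2 ^ 3 by norm_num, Real.log_pow]
  norm_num

/-- the points are different from `p` -/
theorem ne_P (P : ℕ → ℂ) (hP : ∀ j, ‖P j‖ ≤ 1) (p w : ℂ) (hp : ‖p‖ ≤ 1)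
    (h : ∀ δ : ℝ, 0 < δ → 0 ≤ vt P δ (p, conj p, w)) (j : ℕ) : 0 < ‖p - P j‖ := by
  by_contra hcon
  have h0 : ‖p - P j‖ = 0 := le_antisymm (not_lt.1 hcon) (norm_nonneg _)
  have hD : D2 P j (p, conj p) = 0 := by rw [D2_eq, h0]; ring
  obtain ⟨B, hB⟩ : ∃ B : ℝ, B = Real.log 8 - 18 + 1 / 2 * Real.log (1 + ‖w‖ ^ 2) := ⟨_, rfl⟩
  have hB0 : 0 ≤ B := by
    have := part_sum P hP p w hp 8 (by norm_num) le_rfl (h 8 (by norm_num)) 0
    rw [Finset.sum_range_zero] at this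
    rw [hB]; exact this
  obtain ⟨k, hk⟩ : ∃ k : ℝ, k = 2 * 2 ^ j * (B + 1) := ⟨_, rfl⟩
  have hk0 : 0 < k := by rw [hk]; positivity
  have hδ : 0 < 8 * Real.exp (-k) := by positivity
  have hδ8 : 8 * Real.exp (-k) ≤ 8 := by
    have : Real.exp (-k) ≤ 1 := Real.exp_le_one_iff.2 (by linarith)
    linarith
  have h1 := part_sum P hP p w hp (8 * Real.exp (-k)) hδ hδ8 (h _ hδ) (j + 1)
  rw [← hB] at h1
  have h2 : ∀ i ∈ Finset.range (j + 1), 0 ≤ (1 / 2 : ℝ) ^ i *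
      (1 / 2 * (Real.log 8 - Real.log (max (D2 P i (p, conj p)) (8 * Real.exp (-k))))) := by
    intro i _
    have h3 : Real.log (max (D2 P i (p, conj p)) (8 * Real.exp (-k))) ≤ Real.log 8 :=
      Real.log_le_log (lt_of_lt_of_le hδ (le_max_right _ _)) (max_le (D2_le P hP p hp i) hδ8)
    have h4 : 0 ≤ Real.log 8 - Real.log (max (D2 P i (p, conj p)) (8 * Real.exp (-k))) := by
      linarith
    positivity
  have h3 := Finset.single_le_sum h2 (Finset.self_mem_range_succ j)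
  rw [hD, max_eq_right hδ.le, Real.log_mul (by norm_num) (Real.exp_pos _).ne', Real.log_exp] at h3
  have h4 : (1 / 2 : ℝ) ^ j * (1 / 2 * (Real.log 8 - (Real.log 8 + -k))) = B + 1 := by
    rw [hk]
    have : (1 / 2 : ℝ) ^ j * 2 ^ j = 1 := by rw [← mul_pow]; norm_num
    linear_combination (B + 1) * this
  rw [h4] at h3
  linarith

/-- the sum of the weights -/
theorem sum_M (P : ℕ → ℂ) (hP : ∀ j, ‖P j‖ ≤ 1) (p w : ℂ) (hp : ‖p‖ ≤ 1)
    (h : ∀ δ : ℝ, 0 < δ → 0 ≤ vt P δ (p, conj p, w)) (n : ℕ) :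
    ∑ j ∈ Finset.range n, (1 / 2 : ℝ) ^ j * (Real.log 2 - Real.log ‖p - P j‖) ≤
      Real.log 8 - 18 + 1 / 2 * Real.log (1 + ‖w‖ ^ 2) := by
  have hne := ne_P P hP p w hp h
  have hDpos : ∀ j, 0 < D2 P j (p, conj p) := fun j => by
    rw [D2_eq]; have := hne j; positivity
  obtain ⟨δ, hδ, hδ8, hδD⟩ : ∃ δ : ℝ, 0 < δ ∧ δ ≤ 8 ∧ ∀ j ∈ Finset.range n,
      δ ≤ D2 P j (p, conj p) := by
    clear h
    induction n with
    | zero => exact ⟨8, by norm_num, le_rfl, by simp⟩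
    | succ n ih =>
      obtain ⟨δ, h1, h2, h3⟩ := ih
      refine ⟨min δ (D2 P n (p, conj p)), lt_min h1 (hDpos n), (min_le_left _ _).trans h2, ?_⟩
      intro j hj
      rw [Finset.mem_range] at hj
      rcases Nat.lt_succ_iff_lt_or_eq.1 hj with h4 | h4
      · exact (min_le_left _ _).trans (h3 j (Finset.mem_range.2 h4))
      · rw [h4]; exact min_le_right _ _
  have h1 := part_sum P hP p w hp δ hδ hδ8 (h δ hδ) n
  refine le_trans (le_of_eq ?_) h1
  refine Finset.sum_congr rfl fun j hj => ?_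
  rw [max_eq_left (hδD j hj), D2_eq, Real.log_mul (by norm_num) (pow_pos (hne j) 2).ne',
    Real.log_pow, log8]
  push_cast
  ring

theorem sum_sq (n : ℕ) : ∑ l ∈ Finset.range n, ((l : ℝ) ^ 2 + 1) / 2 ^ (l + 1) =
    4 - ((n : ℝ) ^ 2 + 2 * n + 4) / 2 ^ n := by
  induction n with
  | zero => norm_num
  | succ n ih =>
    rw [Finset.sum_range_succ, ih]
    have : (2 : ℝ) ^ n ≠ 0 := by positivity
    push_cast
    field_simp
    ring

theorem sum_swap (m : ℕ → ℝ) (n : ℕ) :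
    ∑ l ∈ Finset.range n, (∑ j ∈ Finset.range l, m j) / 2 ^ (l + 1) =
      ∑ j ∈ Finset.range n, m j * ((1 / 2 : ℝ) ^ (j + 1) - (1 / 2 : ℝ) ^ n) := by
  induction n with
  | zero => simp
  | succ n ih =>
    rw [Finset.sum_range_succ, ih, Finset.sum_range_succ (fun j => m j * _)]
    have h1 : (∑ j ∈ Finset.range n, m j) / 2 ^ (n + 1) =
        ∑ j ∈ Finset.range n, m j * ((1 / 2 : ℝ) ^ n - (1 / 2 : ℝ) ^ (n + 1)) := by
      rw [← Finset.sum_mul]
      have : (1 / 2 : ℝ) ^ n - (1 / 2 : ℝ) ^ (n + 1) = 1 / 2 ^ (n + 1) := by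
        rw [pow_succ (1 / 2 : ℝ) n, one_div_pow, pow_succ (2 : ℝ) n]
        have : (2 : ℝ) ^ n ≠ 0 := by positivity
        field_simp
        ring
      rw [this]
      ring
    rw [h1, ← Finset.sum_add_distrib, sub_self, mul_zero, add_zero]
    refine Finset.sum_congr rfl fun j _ => by ring

theorem norm_A (P : ℕ → ℂ) (p : ℂ) (n : ℕ) :
    ‖A P n p‖ = (1 / 2 : ℝ) ^ (n ^ 2) * ∏ j ∈ Finset.range n, ‖p - P j‖ := by
  unfold A
  rw [norm_mul, norm_pow, norm_prod]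
  norm_num

theorem norm_A_le (P : ℕ → ℂ) (hP : ∀ j, ‖P j‖ ≤ 1) (p : ℂ) (hp : ‖p‖ ≤ 1) (n : ℕ) :
    ‖A P n p‖ ≤ 1 := by
  rw [norm_A]
  have h1 : ∏ j ∈ Finset.range n, ‖p - P j‖ ≤ 2 ^ n := by
    calc ∏ j ∈ Finset.range n, ‖p - P j‖ ≤ ∏ j ∈ Finset.range n, (2 : ℝ) :=
          Finset.prod_le_prod (fun _ _ => norm_nonneg _) fun j _ => norm_sub_le_two P hP p hp j
      _ = 2 ^ n := by rw [Finset.prod_const, Finset.card_range]
  have h2 : (1 / 2 : ℝ) ^ (n ^ 2) ≤ (1 / 2 : ℝ) ^ n :=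
    pow_le_pow_of_le_one (by norm_num) (by norm_num) (by nlinarith [Nat.le_self_pow (n := 2) (by norm_num) n])
  calc (1 / 2 : ℝ) ^ (n ^ 2) * ∏ j ∈ Finset.range n, ‖p - P j‖ ≤ (1 / 2 : ℝ) ^ n * 2 ^ n :=
        mul_le_mul h2 h1 (Finset.prod_nonneg fun _ _ => norm_nonneg _) (by positivity)
    _ = 1 := by rw [← mul_pow]; norm_num

theorem log_A (P : ℕ → ℂ) (p : ℂ) (hne : ∀ j, 0 < ‖p - P j‖) (n : ℕ) :
    -Real.log ‖A P n p‖ = (n : ℝ) ^ 2 * Real.log 2 - ∑ j ∈ Finset.range n, Real.log ‖p - P j‖ := by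
  rw [norm_A, Real.log_mul (by positivity) (Finset.prod_ne_zero_iff.2 fun j _ => (hne j).ne'),
    Real.log_pow, Real.log_prod (fun j _ => (hne j).ne'), one_div, Real.log_inv]
  push_cast
  ring

/-- S_esc -/
theorem s_esc (hA : S_escA) : S_esc := by
  intro P hP p w M hp hM
  by_contra hcon
  push Not at hcon
  have hne := ne_P P hP p w hp hcon
  have hsum := sum_M P hP p w hp hcon
  have hl2 := Real.log_two_lt_d9
  have hl2' := Real.log_two_gt_d9
  -- size of `w`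
  have h0 := hsum 0
  rw [Finset.sum_range_zero, log8] at h0
  have hw1 : 1 ≤ ‖w‖ := by
    by_contra hlt
    rw [not_le] at hlt
    have h1 : Real.log (1 + ‖w‖ ^ 2) ≤ Real.log 2 :=
      Real.log_le_log (by positivity) (by nlinarith [norm_nonneg w])
    linarith
  have hlogw : 1 / 2 * Real.log (1 + ‖w‖ ^ 2) ≤ 1 / 2 * Real.log 2 + Real.log ‖w‖ := by
    have h1 : Real.log (1 + ‖w‖ ^ 2) ≤ Real.log (2 * ‖w‖ ^ 2) :=
      Real.log_le_log (by positivity) (by nlinarith)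
    rw [Real.log_mul (by norm_num) (by positivity), Real.log_pow] at h1
    push_cast at h1
    linarith
  -- the bound of the series
  have hm0 : ∀ j, 0 ≤ Real.log 2 - Real.log ‖p - P j‖ := fun j => by
    have := Real.log_le_log (hne j) (norm_sub_le_two P hP p hp j)
    linarith
  have hS : ∀ n : ℕ, ∑ l ∈ Finset.range n, (-Real.log ‖A P l p‖ + Real.log 2) / 2 ^ (l + 1) ≤
      1 / 2 * Real.log ‖w‖ - 5 := by
    intro n
    have h1 : ∀ l ∈ Finset.range n, (-Real.log ‖A P l p‖ + Real.log 2) / 2 ^ (l + 1) ≤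
        Real.log 2 * (((l : ℝ) ^ 2 + 1) / 2 ^ (l + 1)) +
          (∑ j ∈ Finset.range l, (Real.log 2 - Real.log ‖p - P j‖)) / 2 ^ (l + 1) := by
      intro l _
      have h2 : (0 : ℝ) < 2 ^ (l + 1) := by positivity
      rw [mul_div_assoc', ← add_div]
      refine div_le_div_of_nonneg_right ?_ h2.le
      rw [log_A P p hne, Finset.sum_sub_distrib, Finset.sum_const, Finset.card_range, nsmul_eq_mul]
      have h3 : 0 ≤ (l : ℝ) * Real.log 2 := by
        have : 0 ≤ Real.log 2 := by linarith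
        positivity
      linarith
    refine (Finset.sum_le_sum h1).trans ?_
    rw [Finset.sum_add_distrib, ← Finset.mul_sum, sum_sq, sum_swap]
    have h2 : ∑ j ∈ Finset.range n, (Real.log 2 - Real.log ‖p - P j‖) *
        ((1 / 2 : ℝ) ^ (j + 1) - (1 / 2 : ℝ) ^ n) ≤
        1 / 2 * ∑ j ∈ Finset.range n, (1 / 2 : ℝ) ^ j * (Real.log 2 - Real.log ‖p - P j‖) := by
      rw [Finset.mul_sum]
      refine Finset.sum_le_sum fun j _ => ?_
      have h3 : 0 ≤ (Real.log 2 - Real.log ‖p - P j‖) * (1 / 2 : ℝ) ^ n :=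
        mul_nonneg (hm0 j) (by positivity)
      have h4 : (Real.log 2 - Real.log ‖p - P j‖) * ((1 / 2 : ℝ) ^ (j + 1) - (1 / 2 : ℝ) ^ n) =
          1 / 2 * ((1 / 2 : ℝ) ^ j * (Real.log 2 - Real.log ‖p - P j‖)) -
            (Real.log 2 - Real.log ‖p - P j‖) * (1 / 2 : ℝ) ^ n := by
        rw [pow_succ]; ring
      rw [h4]
      linarith
    have h3 := hsum n
    rw [log8] at h3
    have h4 : 0 ≤ ((n : ℝ) ^ 2 + 2 * n + 4) / 2 ^ n := by positivity
    have h5 : Real.log 2 * (4 - ((n : ℝ) ^ 2 + 2 * n + 4) / 2 ^ n) ≤ Real.log 2 * 4 :=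
      mul_le_mul_of_nonneg_left (by linarith) (by linarith)
    linarith
  -- the orbit
  have hy0 : yy P p w 0 = conj p := by rw [yy]
  have hy1 : yy P p w 1 = w := by rw [yy]
  have hesc := hA (fun n => A P n p) (yy P p w) (1 / 2 * Real.log ‖w‖ - 5) (fun n => by
      rw [← norm_ne_zero_iff, norm_A]
      exact mul_ne_zero (by positivity) (Finset.prod_ne_zero_iff.2 fun j _ => (hne j).ne'))
    (fun n => norm_A_le P hP p hp n) hS (fun n => yy_two P p w n)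
    (by rw [hy0, RCLike.norm_conj]; exact hp) (by rw [hy1]; linarith)
  obtain ⟨m, hm⟩ := pow_unbounded_of_one_lt M (one_lt_two : (1 : ℝ) < 2)
  have h1 := hesc (2 * m)
  have h2 := hM m
  rw [Phi_eq] at h2
  have h3 : ‖yy P p w (2 * m + 1)‖ ≤ M :=
    ((norm_snd_le (yy P p w (2 * m), yy P p w (2 * m + 1))).trans
      (norm_snd_le (p, yy P p w (2 * m), yy P p w (2 * m + 1)))).trans h2
  have h4 : Real.log ‖yy P p w (2 * m + 1)‖ ≤ ‖yy P p w (2 * m + 1)‖ :=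
    Real.log_le_self (norm_nonneg _)
  have h5 : (2 : ℝ) ^ m ≤ 2 ^ (2 * m) := pow_le_pow_right₀ (by norm_num) (by omega)
  have h6 : (0 : ℝ) < 2 ^ (2 * m) := by positivity
  linarith

end Pool.Agent.H200.K
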